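import Pool.Agent.Q111.KU.Stm

/-! Project KU, job CL. -/

set_option autoImplicit false

namespace Pool.Agent.Q96.KU

open Finset Pool.Agent.Q111.KU

theorem cl_trig (m : ℤ) :
    (Real.cos (m * (Real.pi / 2)) =
      (if (m : ZMod 4) = 0 then (1 : ℝ) else 0) - (if (m : ZMod 4) = 2 then (1 : ℝ) else 0)) ∧
    (Real.sin (m * (Real.pi / 2)) =
      (if (m : ZMod 4) = 1 then (1 : ℝ) else 0) - (if (m : ZMod 4) = 3 then (1 : ℝ) else 0)) ∧
    (Real.cos (2 * (m * (Real.pi / 2))) =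
      (if (m : ZMod 4) = 0 then (1 : ℝ) else 0) + (if (m : ZMod 4) = 2 then (1 : ℝ) else 0)
        - (if (m : ZMod 4) = 1 then (1 : ℝ) else 0) - (if (m : ZMod 4) = 3 then (1 : ℝ) else 0)) ∧
    ((if (m : ZMod 4) = 0 then (1 : ℝ) else 0) + (if (m : ZMod 4) = 1 then (1 : ℝ) else 0)
        + (if (m : ZMod 4) = 2 then (1 : ℝ) else 0) + (if (m : ZMod 4) = 3 then (1 : ℝ) else 0)) = 1 := by
  have h4 : ((4 : ℤ) : ZMod 4) = 0 := by decide
  have key : ∀ (q r : ℤ), m = 4 * q + r → (m : ZMod 4) = (r : ZMod 4) ∧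
      Real.cos (m * (Real.pi / 2)) = Real.cos (r * (Real.pi / 2)) ∧
      Real.sin (m * (Real.pi / 2)) = Real.sin (r * (Real.pi / 2)) ∧
      Real.cos (2 * (m * (Real.pi / 2))) = Real.cos (2 * (r * (Real.pi / 2))) := by
    intro q r h
    subst h
    refine ⟨?_, ?_, ?_, ?_⟩
    · rw [Int.cast_add, Int.cast_mul, h4]; simp
    · have e : (((4 * q + r : ℤ) : ℝ) * (Real.pi / 2)) = r * (Real.pi / 2) + q * (2 * Real.pi) := by
        push_cast; ring
      rw [e, Real.cos_add_int_mul_two_pi]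
    · have e : (((4 * q + r : ℤ) : ℝ) * (Real.pi / 2)) = r * (Real.pi / 2) + q * (2 * Real.pi) := by
        push_cast; ring
      rw [e, Real.sin_add_int_mul_two_pi]
    · have e : 2 * (((4 * q + r : ℤ) : ℝ) * (Real.pi / 2)) =
          2 * (r * (Real.pi / 2)) + ((2 * q : ℤ) : ℝ) * (2 * Real.pi) := by
        push_cast; ring
      rw [e, Real.cos_add_int_mul_two_pi]
  have h0 : 0 ≤ m % 4 := Int.emod_nonneg _ (by norm_num)
  have h1 : m % 4 < 4 := Int.emod_lt_of_pos _ (by norm_num)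
  obtain ⟨k0, k1, k2, k3⟩ := key (m / 4) (m % 4) (Int.mul_ediv_add_emod m 4).symm
  rw [k0, k1, k2, k3]
  have hpi2 : (2 : ℝ) * (Real.pi / 2) = Real.pi := by ring
  interval_cases (m % 4)
  · have a1 : ((0 : ℤ) : ZMod 4) = 0 := by decide
    have a2 : ¬ ((0 : ℤ) : ZMod 4) = 1 := by decide
    have a3 : ¬ ((0 : ℤ) : ZMod 4) = 2 := by decide
    have a4 : ¬ ((0 : ℤ) : ZMod 4) = 3 := by decide
    rw [if_pos a1, if_neg a2, if_neg a3, if_neg a4]
    norm_num
  · have a1 : ¬ ((1 : ℤ) : ZMod 4) = 0 := by decide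
    have a2 : ((1 : ℤ) : ZMod 4) = 1 := by decide
    have a3 : ¬ ((1 : ℤ) : ZMod 4) = 2 := by decide
    have a4 : ¬ ((1 : ℤ) : ZMod 4) = 3 := by decide
    rw [if_neg a1, if_pos a2, if_neg a3, if_neg a4]
    have e : 2 * (((1 : ℤ) : ℝ) * (Real.pi / 2)) = Real.pi := by push_cast; ring
    rw [e]
    simp
  · have a1 : ¬ ((2 : ℤ) : ZMod 4) = 0 := by decide
    have a2 : ¬ ((2 : ℤ) : ZMod 4) = 1 := by decide
    have a3 : ((2 : ℤ) : ZMod 4) = 2 := by decide
    have a4 : ¬ ((2 : ℤ) : ZMod 4) = 3 := by decide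
    rw [if_neg a1, if_neg a2, if_pos a3, if_neg a4]
    have e : (((2 : ℤ) : ℝ) * (Real.pi / 2)) = Real.pi := by push_cast; ring
    rw [e]
    simp
  · have a1 : ¬ ((3 : ℤ) : ZMod 4) = 0 := by decide
    have a2 : ¬ ((3 : ℤ) : ZMod 4) = 1 := by decide
    have a3 : ¬ ((3 : ℤ) : ZMod 4) = 2 := by decide
    have a4 : ((3 : ℤ) : ZMod 4) = 3 := by decide
    rw [if_neg a1, if_neg a2, if_neg a3, if_pos a4]
    have e : (((3 : ℤ) : ℝ) * (Real.pi / 2)) = Real.pi + Real.pi / 2 := by push_cast; ring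
    have e2 : 2 * (((3 : ℤ) : ℝ) * (Real.pi / 2)) = Real.pi + 2 * Real.pi := by push_cast; ring
    rw [e2, e, Real.cos_add_two_pi, Real.cos_add_pi_div_two, Real.sin_add_pi_div_two]
    simp

theorem cos_lip (u w : ℝ) : |Real.cos (u + w) - Real.cos u| ≤ |w| := by
  have h := Real.abs_cos_sub_cos_le (u + w) u
  simpa using h

theorem sin_lip (u w : ℝ) : |Real.sin (u + w) - Real.sin u| ≤ |w| := by
  have h := Real.abs_sin_sub_sin_le (u + w) u
  simpa using h

theorem t_CL : S_CL := by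
  intro V _ θ i h1 h2 h3
  set n : ℝ := (Fintype.card V : ℝ) with hn
  have hn1 : 1 ≤ n := by
    rw [hn]
    exact_mod_cast Fintype.card_pos_iff.mpr ⟨i⟩
  have hpi := Real.pi_pos
  have hpi3 := Real.pi_lt_d2
  have hpi4 := Real.pi_gt_three
  set a : V → ℤ := fun k => round ((θ k - θ i) / (Real.pi / 2)) with ha
  set w : V → ℝ := fun k => θ k - θ i - a k * (Real.pi / 2) with hw
  have hwk : ∀ k, θ k - θ i = a k * (Real.pi / 2) + w k := by intro k; simp only [hw]; ring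
  have hwb : ∀ k, |w k| ≤ Real.pi / 4 := by
    intro k
    have h := abs_sub_round ((θ k - θ i) / (Real.pi / 2))
    have e : w k = ((θ k - θ i) / (Real.pi / 2) - round ((θ k - θ i) / (Real.pi / 2))) * (Real.pi / 2) := by
      simp only [hw, ha]
      field_simp
    rw [e, abs_mul, abs_of_pos (by positivity : 0 < Real.pi / 2)]
    nlinarith
  have hcos : ∀ k, 4 / 5 * w k ^ 2 ≤ 1 - |Real.cos (2 * (θ k - θ i))| := by
    intro k
    have e : 2 * (θ k - θ i) = 2 * w k + a k * Real.pi := by rw [hwk]; ring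
    have e2 : |Real.cos (2 * (θ k - θ i))| = |Real.cos (2 * w k)| := by
      rw [e, Real.cos_add_int_mul_pi]
      rw [abs_mul]
      have : |((-1 : ℝ) ^ (a k))| = 1 := by
        rw [abs_zpow]; simp
      rw [this, one_mul]
    have hb := hwb k
    have hb' := abs_le.mp hb
    have hc : 0 ≤ Real.cos (2 * w k) := by
      apply Real.cos_nonneg_of_neg_pi_div_two_le_of_le <;> linarith
    rw [e2, abs_of_nonneg hc, Real.cos_two_mul']
    have hs := Real.mul_abs_le_abs_sin (x := w k) (by linarith)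
    have h5 : 0 ≤ 2 / Real.pi * |w k| := by positivity
    have h6 : (2 / Real.pi * |w k|) ^ 2 ≤ |Real.sin (w k)| ^ 2 := pow_le_pow_left₀ h5 hs 2
    rw [sq_abs, mul_pow, sq_abs, div_pow] at h6
    have h7 : 2 / 5 ≤ 2 ^ 2 / Real.pi ^ 2 := by
      rw [div_le_div_iff₀ (by norm_num) (by positivity)]
      nlinarith
    have h8 : 2 / 5 * w k ^ 2 ≤ 2 ^ 2 / Real.pi ^ 2 * w k ^ 2 := by
      apply mul_le_mul_of_nonneg_right h7 (sq_nonneg _)
    have h9 := Real.sin_sq_add_cos_sq (w k)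
    nlinarith
  have hw2 : ∑ k, w k ^ 2 ≤ 3 / 8 / 10 ^ 9 * n := by
    have h := Finset.sum_le_sum (s := Finset.univ) (fun k _ => hcos k)
    rw [← Finset.mul_sum] at h
    have h' := h.trans h1
    norm_num at h' ⊢
    linarith
  have hw2' : 0 ≤ ∑ k, w k ^ 2 := Finset.sum_nonneg (fun k _ => sq_nonneg _)
  have hw1 : ∑ k, |w k| ≤ 2 / 10 ^ 5 * n := by
    have h := sq_sum_le_card_mul_sum_sq (s := (Finset.univ : Finset V)) (f := fun k => |w k|)
    simp only [sq_abs, Finset.card_univ] at h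
    rw [← hn] at h
    have h' : (∑ k, |w k|) ^ 2 ≤ (2 / 10 ^ 5 * n) ^ 2 := by
      refine h.trans ?_
      have : n * ∑ k, w k ^ 2 ≤ n * (3 / 8 / 10 ^ 9 * n) := mul_le_mul_of_nonneg_left hw2 (by linarith)
      nlinarith
    exact abs_le_of_sq_le_sq' h' (by positivity) |>.2
  have hS0 : |∑ k, w k| ≤ 2 / 10 ^ 5 * n := (Finset.abs_sum_le_sum_abs _ _).trans hw1
  set c : ℝ := (∑ k, w k) / n with hc
  have hcb : |c| ≤ 2 / 10 ^ 5 := by
    rw [hc, abs_div, abs_of_pos (by linarith : 0 < n), div_le_iff₀ (by linarith)]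
    exact hS0
  have hcn : c * n = ∑ k, w k := by
    rw [hc]; field_simp
  -- sums of cos and sin
  have hC : (∑ k, Real.cos (θ k - θ i)) ^ 2 ≤ n ^ 2 / 10 ^ 12 := by
    refine le_trans ?_ h2
    unfold OP
    have e : ∑ k, Real.cos (θ k - θ i) =
        (∑ k, Real.cos (θ k)) * Real.cos (θ i) + (∑ k, Real.sin (θ k)) * Real.sin (θ i) := by
      rw [Finset.sum_mul, Finset.sum_mul, ← Finset.sum_add_distrib]
      refine Finset.sum_congr rfl (fun k _ => ?_)
      rw [Real.cos_sub]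
    rw [e]
    have h9 := Real.sin_sq_add_cos_sq (θ i)
    nlinarith [sq_nonneg ((∑ k, Real.cos (θ k)) * Real.sin (θ i) - (∑ k, Real.sin (θ k)) * Real.cos (θ i))]
  have hSn : (∑ k, Real.sin (θ k - θ i)) ^ 2 ≤ n ^ 2 / 10 ^ 12 := by
    refine le_trans ?_ h2
    unfold OP
    have e : ∑ k, Real.sin (θ k - θ i) =
        (∑ k, Real.sin (θ k)) * Real.cos (θ i) - (∑ k, Real.cos (θ k)) * Real.sin (θ i) := by
      rw [Finset.sum_mul, Finset.sum_mul, ← Finset.sum_sub_distrib]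
      refine Finset.sum_congr rfl (fun k _ => ?_)
      rw [Real.sin_sub]
    rw [e]
    have h9 := Real.sin_sq_add_cos_sq (θ i)
    nlinarith [sq_nonneg ((∑ k, Real.cos (θ k)) * Real.cos (θ i) + (∑ k, Real.sin (θ k)) * Real.sin (θ i))]
  have hC2 : (∑ k, Real.cos (2 * (θ k - θ i))) ^ 2 ≤ n ^ 2 / 10 ^ 12 := by
    refine le_trans ?_ h3
    unfold OP
    have e : ∑ k, Real.cos (2 * (θ k - θ i)) =
        (∑ k, Real.cos (2 * θ k)) * Real.cos (2 * θ i) + (∑ k, Real.sin (2 * θ k)) * Real.sin (2 * θ i) := by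
      rw [Finset.sum_mul, Finset.sum_mul, ← Finset.sum_add_distrib]
      refine Finset.sum_congr rfl (fun k _ => ?_)
      rw [mul_sub, Real.cos_sub]
    rw [e]
    have h9 := Real.sin_sq_add_cos_sq (2 * θ i)
    nlinarith [sq_nonneg ((∑ k, Real.cos (2 * θ k)) * Real.sin (2 * θ i) -
      (∑ k, Real.sin (2 * θ k)) * Real.cos (2 * θ i))]
  have hroot : ∀ y : ℝ, y ^ 2 ≤ n ^ 2 / 10 ^ 12 → |y| ≤ n / 10 ^ 6 := by
    intro y hy
    apply abs_le_of_sq_le_sq _ (by positivity)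
    refine hy.trans (le_of_eq ?_)
    ring
  have hC' := hroot _ hC
  have hS' := hroot _ hSn
  have hC2' := hroot _ hC2
  -- differences
  have d1 : |∑ k, Real.cos (θ k - θ i) - (Nc a 0 - Nc a 2)| ≤ ∑ k, |w k| := by
    unfold Nc
    rw [← Finset.sum_sub_distrib, ← Finset.sum_sub_distrib]
    refine (Finset.abs_sum_le_sum_abs _ _).trans (Finset.sum_le_sum (fun k _ => ?_))
    rw [← (cl_trig (a k)).1, hwk]
    exact cos_lip _ _
  have d2 : |∑ k, Real.sin (θ k - θ i) - (Nc a 1 - Nc a 3)| ≤ ∑ k, |w k| := by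
    unfold Nc
    rw [← Finset.sum_sub_distrib, ← Finset.sum_sub_distrib]
    refine (Finset.abs_sum_le_sum_abs _ _).trans (Finset.sum_le_sum (fun k _ => ?_))
    rw [← (cl_trig (a k)).2.1, hwk]
    exact sin_lip _ _
  have d3 : |∑ k, Real.cos (2 * (θ k - θ i)) - (Nc a 0 + Nc a 2 - Nc a 1 - Nc a 3)| ≤ 2 * ∑ k, |w k| := by
    unfold Nc
    rw [← Finset.sum_add_distrib, ← Finset.sum_sub_distrib, ← Finset.sum_sub_distrib,
      ← Finset.sum_sub_distrib, Finset.mul_sum]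
    refine (Finset.abs_sum_le_sum_abs _ _).trans (Finset.sum_le_sum (fun k _ => ?_))
    rw [← (cl_trig (a k)).2.2.1, hwk, mul_add]
    refine (cos_lip _ _).trans ?_
    rw [abs_mul]; simp
  have d4 : Nc a 0 + Nc a 1 + Nc a 2 + Nc a 3 = n := by
    unfold Nc
    rw [← Finset.sum_add_distrib, ← Finset.sum_add_distrib, ← Finset.sum_add_distrib]
    rw [Finset.sum_congr rfl (fun k _ => (cl_trig (a k)).2.2.2)]
    simp [hn]
  refine ⟨θ i + c, a, fun k => w k - c, ?_, ?_, ?_, ?_, ?_⟩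
  · intro k
    have := hwk k
    linarith
  · intro k
    have e1 := abs_le.mp (hwb k)
    have e2 := abs_le.mp hcb
    norm_num at e2
    rw [abs_le]
    constructor <;> [linarith [e1.1, e2.2]; linarith [e1.2, e2.1]]
  · rw [Finset.sum_sub_distrib]
    simp only [Finset.sum_const, Finset.card_univ, nsmul_eq_mul]
    rw [← hn]; linarith
  · have e : ∑ k, (w k - c) ^ 2 = ∑ k, w k ^ 2 - n * c ^ 2 := by
      have e1 : ∀ k, (w k - c) ^ 2 = w k ^ 2 - 2 * c * w k + c ^ 2 := by intro k; ring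
      rw [Finset.sum_congr rfl (fun k _ => e1 k), Finset.sum_add_distrib, Finset.sum_sub_distrib,
        ← Finset.mul_sum, ← hcn]
      simp only [Finset.sum_const, Finset.card_univ, nsmul_eq_mul]
      rw [← hn]; ring
    change ∑ k, (w k - c) ^ 2 ≤ _
    rw [e]
    have : 0 ≤ n * c ^ 2 := by positivity
    norm_num at hw2 ⊢
    linarith
  · have f1 := abs_le.mp d1
    have f2 := abs_le.mp d2
    have f3 := abs_le.mp d3
    have g1 := abs_le.mp hC'
    have g2 := abs_le.mp hS'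
    have g3 := abs_le.mp hC2'
    intro cc
    rw [← hn]
    norm_num at g1 g2 g3 hw1
    fin_cases cc
    · change |Nc a 0 - n / 4| ≤ _
      rw [abs_le]; norm_num
      constructor <;> linarith [f1.1, f1.2, f2.1, f2.2, f3.1, f3.2, g1.1, g1.2, g2.1, g2.2, g3.1, g3.2]
    · change |Nc a 1 - n / 4| ≤ _
      rw [abs_le]; norm_num
      constructor <;> linarith [f1.1, f1.2, f2.1, f2.2, f3.1, f3.2, g1.1, g1.2, g2.1, g2.2, g3.1, g3.2]
    · change |Nc a 2 - n / 4| ≤ _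
      rw [abs_le]; norm_num
      constructor <;> linarith [f1.1, f1.2, f2.1, f2.2, f3.1, f3.2, g1.1, g1.2, g2.1, g2.2, g3.1, g3.2]
    · change |Nc a 3 - n / 4| ≤ _
      rw [abs_le]; norm_num
      constructor <;> linarith [f1.1, f1.2, f2.1, f2.2, f3.1, f3.2, g1.1, g1.2, g2.1, g2.2, g3.1, g3.2]

end Pool.Agent.Q96.KU
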